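import Pool.Agent.Y6.G.Stm

/-!
# Project EP, job EP-CH5: persistence of the decay (adapted from the file of helper258)
-/

open Set Filter Topology
open scoped ComplexConjugate

set_option autoImplicit false

namespace Pool.Agent.Y338.EP.CH5

open Pool.Agent.Y6.G
open Pool.Agent.Y6.F (DSol Mx κr Prt)
open Pool.Agent.Y6.M (cX cY εc Uth x0)

/-! ### a comparison argument -/

lemma end_bd {ε K R θ T : ℝ} (hT : 0 ≤ T) (hTθ : T ≤ θ) {u u' : ℝ → ℂ}
    (hu : ∀ t ∈ Icc 0 θ, HasDerivWithinAt u (u' t) (Icc 0 θ) t) (hu0 : ‖u 0‖ ≤ ε)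
    (hb : ∀ t ∈ Icc 0 θ, ‖u' t‖ ≤ K * (R * Real.exp (K * t))) :
    ‖u T‖ ≤ ε + R * (Real.exp (K * T) - 1) := by
  have hc : ContinuousOn u (Icc 0 T) := fun t ht =>
    ((hu t ⟨ht.1, ht.2.trans hTθ⟩).continuousWithinAt).mono (Icc_subset_Icc_right hTθ)
  refine image_norm_le_of_norm_deriv_right_le_deriv_boundary (f := u) (f' := u') (a := 0) (b := T)
    (B := fun t => ε + R * (Real.exp (K * t) - 1)) (B' := fun t => R * (Real.exp (K * t) * K))
    hc ?_ ?_ ?_ ?_ ⟨hT, le_rfl⟩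
  · intro t ht
    refine (hu t ⟨ht.1, ht.2.le.trans hTθ⟩).mono_of_mem_nhdsWithin ?_
    exact Icc_mem_nhdsGE_of_mem ⟨ht.1, lt_of_lt_of_le ht.2 hTθ⟩
  · simpa using hu0
  · intro t
    have h1 : HasDerivAt (fun t : ℝ => K * t) K t := by
      simpa using (hasDerivAt_id t).const_mul K
    exact ((h1.exp.sub_const 1).const_mul R).const_add ε
  · intro t ht
    refine (hb t ⟨ht.1, ht.2.le.trans hTθ⟩).trans (le_of_eq ?_)
    ring

lemma barrier {ε K θ : ℝ} (hε : 0 < ε) (_hK : 0 ≤ K) (hθ : 0 ≤ θ) {u v u' v' : ℝ → ℂ}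
    (hu : ∀ t ∈ Icc 0 θ, HasDerivWithinAt u (u' t) (Icc 0 θ) t)
    (hv : ∀ t ∈ Icc 0 θ, HasDerivWithinAt v (v' t) (Icc 0 θ) t)
    (hu0 : ‖u 0‖ ≤ ε) (hv0 : ‖v 0‖ ≤ ε)
    (hb : ∀ t ∈ Icc 0 θ, ∀ m : ℝ, ε ≤ m → (∀ s ∈ Icc 0 t, ‖u s‖ ≤ m ∧ ‖v s‖ ≤ m) →
      ‖u' t‖ ≤ K * m ∧ ‖v' t‖ ≤ K * m) :
    ∀ t ∈ Icc 0 θ, ‖u t‖ ≤ ε * Real.exp (K * t) ∧ ‖v t‖ ≤ ε * Real.exp (K * t) := by
  set ρ : ℝ → ℝ := fun t => max ‖u t‖ ‖v t‖ * Real.exp (-(K * t)) with hρ
  have huc : ContinuousOn u (Icc 0 θ) := fun t ht => (hu t ht).continuousWithinAt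
  have hvc : ContinuousOn v (Icc 0 θ) := fun t ht => (hv t ht).continuousWithinAt
  have hρc : ContinuousOn ρ (Icc 0 θ) :=
    (huc.norm.sup hvc.norm).mul (by fun_prop)
  obtain ⟨T, hT, hmax⟩ := isCompact_Icc.exists_isMaxOn ⟨0, left_mem_Icc.2 hθ⟩ hρc
  obtain ⟨R, hR⟩ : ∃ R, R = ρ T := ⟨_, rfl⟩
  have hall : ∀ t ∈ Icc 0 θ, ‖u t‖ ≤ R * Real.exp (K * t) ∧ ‖v t‖ ≤ R * Real.exp (K * t) := by
    intro t ht
    have h1 : ρ t ≤ R := by
      rw [hR]
      exact hmax ht
    have h2 : max ‖u t‖ ‖v t‖ ≤ R * Real.exp (K * t) := by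
      have h3 : max ‖u t‖ ‖v t‖ = ρ t * Real.exp (K * t) := by
        rw [hρ]
        simp only
        rw [mul_assoc, ← Real.exp_add, neg_add_cancel, Real.exp_zero, mul_one]
      rw [h3]
      exact mul_le_mul_of_nonneg_right h1 (Real.exp_pos _).le
    exact ⟨(le_max_left _ _).trans h2, (le_max_right _ _).trans h2⟩
  by_cases hRε : R ≤ ε
  · intro t ht
    obtain ⟨h1, h2⟩ := hall t ht
    have h3 : R * Real.exp (K * t) ≤ ε * Real.exp (K * t) :=
      mul_le_mul_of_nonneg_right hRε (Real.exp_pos _).le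
    exact ⟨h1.trans h3, h2.trans h3⟩
  · exfalso
    push Not at hRε
    have hR0 : 0 < R := hε.trans hRε
    have hder : ∀ t ∈ Icc 0 θ, ‖u' t‖ ≤ K * (R * Real.exp (K * t)) ∧
        ‖v' t‖ ≤ K * (R * Real.exp (K * t)) := by
      intro t ht
      refine hb t ht _ ?_ ?_
      · have h1 : 1 ≤ Real.exp (K * t) := Real.one_le_exp (mul_nonneg _hK ht.1)
        nlinarith
      · intro s hs
        have h1 := hall s ⟨hs.1, hs.2.trans ht.2⟩
        have h2 : R * Real.exp (K * s) ≤ R * Real.exp (K * t) := by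
          refine mul_le_mul_of_nonneg_left (Real.exp_le_exp.2 ?_) hR0.le
          exact mul_le_mul_of_nonneg_left hs.2 _hK
        exact ⟨h1.1.trans h2, h1.2.trans h2⟩
    have e1 := end_bd hT.1 hT.2 hu hu0 (fun t ht => (hder t ht).1)
    have e2 := end_bd hT.1 hT.2 hv hv0 (fun t ht => (hder t ht).2)
    have e3 : ε + R * (Real.exp (K * T) - 1) < R * Real.exp (K * T) := by
      have : R * (Real.exp (K * T) - 1) = R * Real.exp (K * T) - R := by ring
      linarith
    have e4 : max ‖u T‖ ‖v T‖ < R * Real.exp (K * T) :=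
      max_lt (lt_of_le_of_lt e1 e3) (lt_of_le_of_lt e2 e3)
    have e5 : R < R := by
      calc R = max ‖u T‖ ‖v T‖ * Real.exp (-(K * T)) := hR
        _ < R * Real.exp (K * T) * Real.exp (-(K * T)) :=
          mul_lt_mul_of_pos_right e4 (Real.exp_pos _)
        _ = R := by rw [mul_assoc, ← Real.exp_add, add_neg_cancel, Real.exp_zero, mul_one]
    exact lt_irrefl _ e5

/-! ### the scales -/

section scales

variable {α : ℕ → ℝ} {G : ℕ → ℂ} {b d : ℕ → ℝ}

lemma al_big (H : ChnG α G b d) : ∀ n, 24 ≤ α n := by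
  intro n
  induction n with
  | zero => exact le_trans (by norm_num) H.A0
  | succ n ih =>
    rw [H.step]
    exact ih.trans (le_self_pow₀ (by linarith) (by omega))

lemma al_mono (H : ChnG α G b d) : Monotone α := by
  refine monotone_nat_of_le_succ fun n => ?_
  rw [H.step]
  exact le_self_pow₀ (by linarith [al_big H n]) (by omega)

lemma drain_bd (H : ChnG α G b d) (n : ℕ) :
    12 * α (n + 1) * (α (n + 1) ^ 20)⁻¹ ≤ 1 := by
  have h1 := al_big H (n + 1)
  rw [← div_eq_mul_inv, div_le_one (by positivity)]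
  calc 12 * α (n + 1) ≤ α (n + 1) * α (n + 1) := by nlinarith
    _ = α (n + 1) ^ 2 := by ring
    _ ≤ _ := pow_le_pow_right₀ (by linarith) (by omega)

lemma uth_le (H : ChnG α G b d) (n : ℕ) : 0 ≤ Uth α n ∧ Uth α n ≤ 1 := by
  have h1 := al_big H n
  unfold Uth
  refine ⟨by positivity, inv_le_one_of_one_le₀ ?_⟩
  exact Real.one_le_sqrt.mpr (by linarith)

lemma kr_le (H : ChnG α G b d) (n : ℕ) : κr α (n + 1) ≤ 1 := by
  change (α n ^ 4)⁻¹ ≤ 1
  exact inv_le_one_of_one_le₀ (one_le_pow₀ (by linarith [al_big H n]))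

lemma kr_nonneg (H : ChnG α G b d) (n : ℕ) : 0 ≤ κr α (n + 1) := by
  change 0 ≤ (α n ^ 4)⁻¹
  have := al_big H n
  positivity

lemma eps_pos (H : ChnG α G b d) (n : ℕ) : 0 < εc α n := by
  unfold εc
  have := al_big H n
  positivity

end scales

/-- the running maximum is bounded by any bound of the moduli -/
lemma Mx_le {α : ℕ → ℝ} {x y : ℕ → ℝ → ℂ} {n : ℕ} {t m : ℝ} (ht : 0 ≤ t)
    (h1 : εc α (n + 1) ≤ m) (h2 : ∀ s ∈ Icc 0 t, ‖x (n + 1) s‖ ≤ m ∧ ‖y n s‖ ≤ m) :
    Mx α x y (n + 1) t ≤ m := by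
  change max (εc α (n + 1)) (sSup ((fun s => max ‖x (n + 1) s‖ ‖y n s‖) '' Icc 0 t)) ≤ m
  refine max_le h1 (csSup_le ((nonempty_Icc.2 ht).image _) ?_)
  rintro _ ⟨s, hs, rfl⟩
  exact max_le (h2 s hs).1 (h2 s hs).2

lemma le_Mx {α : ℕ → ℝ} {x y : ℕ → ℝ → ℂ} {n : ℕ} {t : ℝ} (ht : 0 ≤ t)
    (h : ∀ s ∈ Icc 0 t, ‖x (n + 1) s‖ ≤ 1 ∧ ‖y n s‖ ≤ 1) :
    ‖x (n + 1) t‖ ≤ Mx α x y (n + 1) t := by
  change _ ≤ max (εc α (n + 1)) (sSup ((fun s => max ‖x (n + 1) s‖ ‖y n s‖) '' Icc 0 t))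
  refine le_max_of_le_right ((le_max_left _ ‖y n t‖).trans (le_csSup ?_ ⟨t, ⟨ht, le_rfl⟩, rfl⟩))
  refine ⟨1, ?_⟩
  rintro _ ⟨s, hs, rfl⟩
  exact max_le (h s hs).1 (h s hs).2

theorem t_PERSR : S_PERSR := by
  intro α G b d H k M
  obtain ⟨K, hK⟩ : ∃ K : ℝ, K = 3 * |M| + 2 := ⟨_, rfl⟩
  have hK0 : 0 ≤ K := by
    rw [hK]
    positivity
  refine ⟨α 0 ^ k + α k ^ k * Real.exp K, ?_⟩
  intro N θ x y f g hθ0 hθ1 hS hx0 hy0 hCnd hPrt hM n hn t ht
  have hα0 : 24 ≤ α 0 := al_big H 0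
  have hαk : 24 ≤ α k := al_big H k
  have hexp : 1 ≤ Real.exp K := Real.one_le_exp hK0
  cases n with
  | zero =>
    change α 0 ^ k * 1 ≤ _
    have : 0 ≤ α k ^ k * Real.exp K := by positivity
    linarith
  | succ n =>
    have hε := eps_pos H (n + 1)
    have hdx := fun t ht => hS.dx (n + 1) hn t ht
    have hdy := fun t ht => hS.dy n (by omega) t ht
    have hbar := barrier hε hK0 hθ0 hdx hdy
      (by
        rw [hx0 (n + 1) hn]
        change ‖((εc α (n + 1) : ℝ) : ℂ)‖ ≤ _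
        rw [Complex.norm_real, Real.norm_eq_abs, abs_of_pos hε])
      (by rw [hy0 n, norm_zero]; exact hε.le)
      (by
        intro s hs m hεm hm
        have hm0 : 0 ≤ m := hε.le.trans hεm
        have hmx : Mx α x y (n + 1) s ≤ m := Mx_le hs.1 hεm hm
        have hαn := al_big H n
        have hαn1 := al_big H (n + 1)
        have hαn2 := al_big H (n + 2)
        have hGd : ∀ j, ‖G j‖ * d j ≤ 3 * α j := fun j =>
          (mul_le_mul_of_nonneg_left (H.db j) (norm_nonneg _)).trans (H.hi j)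
        have hd0 : ∀ j, 0 < d j := H.dpos
        have hb0 : ∀ j, 0 < b j := fun j => (H.dpos j).trans_le (H.db j)
        have hxs : ‖x (n + 1) s‖ ≤ m := (hm s ⟨hs.1, le_rfl⟩).1
        have hys : ‖y n s‖ ≤ m := (hm s ⟨hs.1, le_rfl⟩).2
        have hMx : α n * ‖x n s‖ ≤ |M| := (hM n s hs).1.trans (le_abs_self M)
        have hP := hPrt (n + 1) s hs
        have hP' := hPrt n s hs
        -- the main term
        have a1 : ‖conj (G n) * (b n : ℝ) * y n s * conj (x n s)‖ ≤ 3 * |M| * m := by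
          rw [norm_mul, norm_mul, norm_mul, RCLike.norm_conj, RCLike.norm_conj, Complex.norm_real,
            Real.norm_eq_abs, abs_of_pos (hb0 n)]
          calc ‖G n‖ * b n * ‖y n s‖ * ‖x n s‖ = (‖G n‖ * b n) * ‖x n s‖ * ‖y n s‖ := by ring
            _ ≤ (3 * α n) * ‖x n s‖ * ‖y n s‖ :=
                mul_le_mul_of_nonneg_right (mul_le_mul_of_nonneg_right (H.hi n)
                  (norm_nonneg _)) (norm_nonneg _)
            _ = 3 * (α n * ‖x n s‖) * ‖y n s‖ := by ring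
            _ ≤ 3 * |M| * m := by gcongr
        -- the drain
        have a2 : ‖conj (G (n + 1)) * (b (n + 1) + d (n + 1) : ℝ) * y (n + 1) s *
            conj (x (n + 2) s)‖ ≤ m := by
          rw [norm_mul, norm_mul, norm_mul, RCLike.norm_conj, RCLike.norm_conj, Complex.norm_real,
            Real.norm_eq_abs, abs_of_pos (add_pos (hb0 _) (hd0 _))]
          have c2 := (hCnd.1 (n + 1) s hs).2
          have c4 := hCnd.2 (n + 1) s hs
          have c5 : ‖x (n + 2) s‖ ≤ Mx α x y (n + 2) s :=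
            le_Mx (n := n + 1) hs.1 fun r hr =>
              ⟨(hS.one (n + 2) r ⟨hr.1, hr.2.trans hs.2⟩).1,
                (hS.one (n + 1) r ⟨hr.1, hr.2.trans hs.2⟩).2⟩
          have hp : 0 < α (n + 1) ^ 20 := by positivity
          have c6 : ‖x (n + 2) s‖ ≤ (α (n + 1) ^ 20)⁻¹ * m := by
            rw [inv_mul_eq_div, le_div_iff₀ hp]
            calc ‖x (n + 2) s‖ * α (n + 1) ^ 20 ≤ Mx α x y (n + 2) s * α (n + 1) ^ 20 :=
                  mul_le_mul_of_nonneg_right c5 hp.le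
              _ = α (n + 1) ^ 20 * Mx α x y (n + 2) s := mul_comm _ _
              _ ≤ Mx α x y (n + 1) s := c4
              _ ≤ m := hmx
          obtain ⟨hU0, hU1⟩ := uth_le H (n + 2)
          have c7 : ‖y (n + 1) s‖ ≤ 2 := c2.trans (by
            show 2 * Uth α (n + 1 + 1) ≤ 2
            linarith)
          have c3 : ‖G (n + 1)‖ * (b (n + 1) + d (n + 1)) ≤ 6 * α (n + 1) := by
            rw [mul_add]
            linarith [H.hi (n + 1), hGd (n + 1)]
          calc ‖G (n + 1)‖ * (b (n + 1) + d (n + 1)) * ‖y (n + 1) s‖ * ‖x (n + 2) s‖ ≤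
              (6 * α (n + 1)) * 2 * ((α (n + 1) ^ 20)⁻¹ * m) := by
                gcongr
            _ = (12 * α (n + 1) * (α (n + 1) ^ 20)⁻¹) * m := by ring
            _ ≤ 1 * m := mul_le_mul_of_nonneg_right (drain_bd H n) hm0
            _ = m := one_mul m
        have a3 : ‖f (n + 1) s‖ ≤ m := by
          refine hP.1.trans ?_
          calc κr α (n + 1) * Mx α x y (n + 1) s ≤ κr α (n + 1) * m :=
                mul_le_mul_of_nonneg_left hmx (kr_nonneg H n)
            _ ≤ 1 * m := mul_le_mul_of_nonneg_right (kr_le H n) hm0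
            _ = m := one_mul m
        have a4 : ‖g n s‖ ≤ m := by
          refine hP'.2.trans ?_
          calc κr α (n + 1) * Mx α x y (n + 1) s ≤ κr α (n + 1) * m :=
                mul_le_mul_of_nonneg_left hmx (kr_nonneg H n)
            _ ≤ 1 * m := mul_le_mul_of_nonneg_right (kr_le H n) hm0
            _ = m := one_mul m
        have a5 : ‖G n * (d n : ℝ) * x n s * x (n + 1) s‖ ≤ 3 * |M| * m := by
          rw [norm_mul, norm_mul, norm_mul, Complex.norm_real,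
            Real.norm_eq_abs, abs_of_pos (hd0 n)]
          calc ‖G n‖ * d n * ‖x n s‖ * ‖x (n + 1) s‖ ≤ (3 * α n) * ‖x n s‖ * ‖x (n + 1) s‖ :=
                mul_le_mul_of_nonneg_right (mul_le_mul_of_nonneg_right (hGd n)
                  (norm_nonneg _)) (norm_nonneg _)
            _ = 3 * (α n * ‖x n s‖) * ‖x (n + 1) s‖ := by ring
            _ ≤ 3 * |M| * m := by gcongr
        constructor
        · change ‖conj (G n) * (b n : ℝ) * y n s * conj (x n s) -
            conj (G (n + 1)) * (b (n + 1) + d (n + 1) : ℝ) * y (n + 1) s * conj (x (n + 2) s) +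
            f (n + 1) s‖ ≤ K * m
          refine (norm_add_le _ _).trans ?_
          have a6 := norm_sub_le (conj (G n) * (b n : ℝ) * y n s * conj (x n s))
            (conj (G (n + 1)) * (b (n + 1) + d (n + 1) : ℝ) * y (n + 1) s * conj (x (n + 2) s))
          rw [hK]
          linarith
        · change ‖G n * (d n : ℝ) * x n s * x (n + 1) s + g n s‖ ≤ K * m
          refine (norm_add_le _ _).trans ?_
          rw [hK]
          linarith)
    have hMt : Mx α x y (n + 1) t ≤ εc α (n + 1) * Real.exp K := by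
      have h1 : ∀ s ∈ Icc 0 t, εc α (n + 1) * Real.exp (K * s) ≤ εc α (n + 1) * Real.exp K := by
        intro s hs
        refine mul_le_mul_of_nonneg_left (Real.exp_le_exp.2 ?_) hε.le
        have : s ≤ 1 := hs.2.trans (ht.2.trans hθ1)
        nlinarith
      refine Mx_le ht.1 ?_ fun s hs => ?_
      · exact le_mul_of_one_le_right hε.le hexp
      · obtain ⟨h2, h3⟩ := hbar s ⟨hs.1, hs.2.trans ht.2⟩
        exact ⟨h2.trans (h1 s hs), h3.trans (h1 s hs)⟩
    have hαn1 := al_big H (n + 1)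
    have hpow : α (n + 1) ^ k * εc α (n + 1) ≤ α k ^ k := by
      unfold εc
      by_cases hnk : k ≤ n + 1 + 1
      · have h1 : α (n + 1) ^ k * (α (n + 1) ^ (n + 1 + 1))⁻¹ ≤ 1 := by
          rw [← div_eq_mul_inv, div_le_one (by positivity)]
          exact pow_le_pow_right₀ (by linarith) hnk
        exact h1.trans (one_le_pow₀ (by linarith))
      · push Not at hnk
        have h1 : (α (n + 1) ^ (n + 1 + 1))⁻¹ ≤ 1 :=
          inv_le_one_of_one_le₀ (one_le_pow₀ (by linarith))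
        calc α (n + 1) ^ k * (α (n + 1) ^ (n + 1 + 1))⁻¹ ≤ α (n + 1) ^ k * 1 := by gcongr
          _ = α (n + 1) ^ k := mul_one _
          _ ≤ α k ^ k := pow_le_pow_left₀ (by linarith) (al_mono H (by omega)) k
    calc α (n + 1) ^ k * Mx α x y (n + 1) t ≤ α (n + 1) ^ k * (εc α (n + 1) * Real.exp K) := by
          gcongr
      _ = (α (n + 1) ^ k * εc α (n + 1)) * Real.exp K := by ring
      _ ≤ α k ^ k * Real.exp K := by gcongr
      _ ≤ _ := by
          have : 0 ≤ α 0 ^ k := by positivity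
          linarith

end Pool.Agent.Y338.EP.CH5
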